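import Pool.Agent.W2helper58.IR.Stm

set_option autoImplicit false

/-!
# Project IR, piece FIN1
-/

namespace Pool.Agent.W2helper92.IR

open Pool.Agent.W2helper58.IR

variable {X R S : Type}

section basic

variable (Y : Sys X R S)

theorem ptc_mem {v : R × (X → Bool)} (ρ : X → Bool) {x : X} (hx : x ∈ Y.QA v.1 v.2) :
    Y.ptc v ρ x = v.2 x := by
  unfold Sys.ptc
  rw [if_pos hx]

theorem ptc_not {v : R × (X → Bool)} (ρ : X → Bool) {x : X} (hx : x ∉ Y.QA v.1 v.2) :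
    Y.ptc v ρ x = ρ x := by
  unfold Sys.ptc
  rw [if_neg hx]

theorem ptc_run (v : R × (X → Bool)) (ρ : X → Bool) :
    Y.QA v.1 (Y.ptc v ρ) = Y.QA v.1 v.2 ∧ Y.pk v.1 (Y.ptc v ρ) = Y.pk v.1 v.2 ∧
      Y.sk v.1 (Y.ptc v ρ) = Y.sk v.1 v.2 :=
  Y.hA v.1 v.2 (Y.ptc v ρ) fun _ hx => ptc_mem Y ρ hx

open Classical in
/-- the rest of the exchange -/
noncomputable def swp (v : R × (X → Bool)) (ρ : X → Bool) : X → Bool :=
  fun x => if x ∈ Y.QA v.1 v.2 then ρ x else v.2 x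

/-- the exchange outside the questions -/
noncomputable def exch (w : (R × (X → Bool)) × (X → Bool)) : (R × (X → Bool)) × (X → Bool) :=
  ((w.1.1, Y.ptc w.1 w.2), swp Y w.1 w.2)

theorem exch_exch (w : (R × (X → Bool)) × (X → Bool)) : exch Y (exch Y w) = w := by
  obtain ⟨⟨r, ω⟩, ρ⟩ := w
  have h1 := (ptc_run Y (r, ω) ρ).1
  simp only at h1
  unfold exch
  simp only
  refine Prod.ext (Prod.ext rfl ?_) ?_
  · funext x
    simp only
    by_cases hx : x ∈ Y.QA r ω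
    · rw [ptc_mem Y _ (v := (r, Y.ptc (r, ω) ρ)) (by simpa only [h1] using hx)]
      exact ptc_mem Y (v := (r, ω)) ρ hx
    · rw [ptc_not Y _ (v := (r, Y.ptc (r, ω) ρ)) (by simpa only [h1] using hx)]
      unfold swp
      simp only
      rw [if_neg hx]
  · funext x
    simp only
    unfold swp
    simp only
    rw [h1]
    by_cases hx : x ∈ Y.QA r ω
    · rw [if_pos hx, if_pos hx]
    · rw [if_neg hx, ptc_not Y (v := (r, ω)) ρ hx]

end basic

section fin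

variable [Fintype X] [Fintype R] (Y : Sys X R S)

open Classical in
/-- the assignments which are compatible with the knowledge -/
noncomputable def Om (H : List (X × Bool)) : Finset (X → Bool) :=
  Finset.univ.filter fun ρ => ∀ q ∈ H, ρ q.1 = q.2

theorem mem_Om {H : List (X × Bool)} {ρ : X → Bool} : ρ ∈ Om H ↔ ∀ q ∈ H, ρ q.1 = q.2 := by
  unfold Om
  simp

theorem mem_post {p : List Bool} {H : List (X × Bool)} {v : R × (X → Bool)} :
    v ∈ Y.post p H ↔ Y.pk v.1 v.2 = p ∧ ∀ q ∈ H, v.2 q.1 = q.2 := by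
  unfold Sys.post
  simp

/-- resampling -/
theorem resample (p : List Bool) (H : List (X × Bool)) (h : R × (X → Bool) → ℝ) :
    ∑ ρ ∈ Om H, ∑ v ∈ Y.post p H, h (v.1, Y.ptc v ρ) =
      (Om H).card * ∑ v ∈ Y.post p H, h v := by
  classical
  have h1 : ∑ w ∈ Y.post p H ×ˢ Om H, h (w.1.1, Y.ptc w.1 w.2) =
      ∑ w ∈ Y.post p H ×ˢ Om H, h w.1 := by
    refine Finset.sum_bij' (fun w _ => exch Y w) (fun w _ => exch Y w) ?_ ?_ ?_ ?_ ?_
    · rintro ⟨v, ρ⟩ hw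
      rw [Finset.mem_product, mem_post, mem_Om] at hw ⊢
      obtain ⟨⟨h2, h3⟩, h4⟩ := hw
      simp only at h2 h3 h4
      refine ⟨⟨(ptc_run Y v ρ).2.1.trans h2, ?_⟩, ?_⟩
      · intro q hq
        show Y.ptc v ρ q.1 = q.2
        by_cases hx : q.1 ∈ Y.QA v.1 v.2
        · rw [ptc_mem Y ρ hx]
          exact h3 q hq
        · rw [ptc_not Y ρ hx]
          exact h4 q hq
      · intro q hq
        show swp Y v ρ q.1 = q.2
        unfold swp
        split_ifs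
        · exact h4 q hq
        · exact h3 q hq
    · rintro ⟨v, ρ⟩ hw
      rw [Finset.mem_product, mem_post, mem_Om] at hw ⊢
      obtain ⟨⟨h2, h3⟩, h4⟩ := hw
      simp only at h2 h3 h4
      refine ⟨⟨(ptc_run Y v ρ).2.1.trans h2, ?_⟩, ?_⟩
      · intro q hq
        show Y.ptc v ρ q.1 = q.2
        by_cases hx : q.1 ∈ Y.QA v.1 v.2
        · rw [ptc_mem Y ρ hx]
          exact h3 q hq
        · rw [ptc_not Y ρ hx]
          exact h4 q hq
      · intro q hq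
        show swp Y v ρ q.1 = q.2
        unfold swp
        split_ifs
        · exact h4 q hq
        · exact h3 q hq
    · intro w _
      exact exch_exch Y w
    · intro w _
      exact exch_exch Y w
    · intro w _
      rfl
  rw [Finset.sum_product_right, Finset.sum_product_right] at h1
  have h2 : ∑ ρ ∈ Om H, ∑ v ∈ Y.post p H, h (v.1, Y.ptc v ρ) =
      ∑ _ρ ∈ Om H, ∑ v ∈ Y.post p H, h v := h1
  rw [h2, Finset.sum_const, nsmul_eq_mul]

/-- the number of the runs which ask for something in a small set -/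
theorem meet_le {ε : ℝ} {p : List Bool} {H : List (X × Bool)} (hε : 0 ≤ ε)
    (hh : ∀ x, ¬ Y.heavy ε p H x) (Q : Finset X) (hQ : Q.card ≤ Y.t) :
    ∑ v ∈ Y.post p H, (Set.indicator {v : R × (X → Bool) | ∃ x ∈ Q, x ∈ Y.QA v.1 v.2 ∧
      x ∉ H.map Prod.fst} (fun _ => (1 : ℝ)) v) ≤ Y.t * ε * (Y.post p H).card := by
  classical
  have h1 : ∀ v : R × (X → Bool), (Set.indicator {v : R × (X → Bool) | ∃ x ∈ Q,
      x ∈ Y.QA v.1 v.2 ∧ x ∉ H.map Prod.fst} (fun _ => (1 : ℝ)) v) ≤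
      ∑ x ∈ Q, if x ∈ Y.QA v.1 v.2 ∧ x ∉ H.map Prod.fst then (1 : ℝ) else 0 := by
    intro v
    by_cases hv : ∃ x ∈ Q, x ∈ Y.QA v.1 v.2 ∧ x ∉ H.map Prod.fst
    · rw [Set.indicator_of_mem (by exact hv)]
      obtain ⟨x, hx, hx2⟩ := hv
      have h2 : (if x ∈ Y.QA v.1 v.2 ∧ x ∉ H.map Prod.fst then (1 : ℝ) else 0) ≤
          ∑ x ∈ Q, if x ∈ Y.QA v.1 v.2 ∧ x ∉ H.map Prod.fst then (1 : ℝ) else 0 :=
        Finset.single_le_sum (f := fun x => if x ∈ Y.QA v.1 v.2 ∧ x ∉ H.map Prod.fst then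
          (1 : ℝ) else 0) (fun y _ => by split_ifs <;> norm_num) hx
      rw [if_pos hx2] at h2
      exact h2
    · rw [Set.indicator_of_notMem (by exact hv)]
      exact Finset.sum_nonneg fun y _ => by split_ifs <;> norm_num
  refine (Finset.sum_le_sum fun v _ => h1 v).trans ?_
  rw [Finset.sum_comm]
  have h2 : ∀ x ∈ Q, ∑ v ∈ Y.post p H,
      (if x ∈ Y.QA v.1 v.2 ∧ x ∉ H.map Prod.fst then (1 : ℝ) else 0) ≤
        ε * (Y.post p H).card := by
    intro x _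
    by_cases hx : x ∈ H.map Prod.fst
    · rw [Finset.sum_eq_zero (fun v _ => if_neg (fun h => h.2 hx))]
      positivity
    · have h3 := hh x
      unfold Sys.heavy at h3
      have h4 : (((Y.post p H).filter fun v => x ∈ Y.QA v.1 v.2).card : ℝ) ≤
          ε * (Y.post p H).card := by
        by_contra h4
        exact h3 ⟨hx, not_le.1 h4⟩
      rw [← Finset.sum_filter, Finset.sum_const, nsmul_eq_mul, mul_one]
      refine le_trans ?_ h4
      have h5 : ((Y.post p H).filter fun v => x ∈ Y.QA v.1 v.2 ∧ x ∉ H.map Prod.fst) ⊆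
          (Y.post p H).filter fun v => x ∈ Y.QA v.1 v.2 := by
        intro v hv
        rw [Finset.mem_filter] at hv ⊢
        exact ⟨hv.1, hv.2.1⟩
      exact_mod_cast Finset.card_le_card h5
  refine (Finset.sum_le_sum h2).trans ?_
  rw [Finset.sum_const, nsmul_eq_mul]
  have h6 : (Q.card : ℝ) ≤ Y.t := by exact_mod_cast hQ
  have h7 : 0 ≤ ε * (Y.post p H).card := by positivity
  calc (Q.card : ℝ) * (ε * (Y.post p H).card) ≤ Y.t * (ε * (Y.post p H).card) :=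
        mul_le_mul_of_nonneg_right h6 h7
    _ = Y.t * ε * (Y.post p H).card := by ring

/-- the comparison of two runs -/
theorem compare {p : List Bool} {H : List (X × Bool)} {v v' : R × (X → Bool)} {ρ : X → Bool}
    (hv : ∀ q ∈ H, v.2 q.1 = q.2) (hv' : ∀ q ∈ H, v'.2 q.1 = q.2) (hρ : ∀ q ∈ H, ρ q.1 = q.2)
    (s : S)
    (h1 : ¬ ∃ x ∈ Y.QB p s ρ, x ∈ Y.QA v.1 v.2 ∧ x ∉ H.map Prod.fst)
    (h2 : ¬ ∃ x ∈ Y.QB p s ρ, x ∈ Y.QA v'.1 v'.2 ∧ x ∉ H.map Prod.fst)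
    (h3 : ¬ ∃ x ∈ Y.QD (Y.sk v'.1 v'.2) (Y.ct p s ρ) s (Y.ptc v' ρ), x ∈ Y.QA v.1 v.2 ∧
      x ∉ H.map Prod.fst)
    (hok : Y.ok (Y.sk v'.1 v'.2) (Y.ct p s (Y.ptc v' ρ)) s (Y.ptc v' ρ)) :
    Y.ok (Y.sk v'.1 v'.2) (Y.ct p s (Y.ptc v ρ)) s (Y.ptc v' (Y.ptc v ρ)) := by
  have key : ∀ w : R × (X → Bool), (∀ q ∈ H, w.2 q.1 = q.2) → ∀ x,
      ¬ (x ∈ Y.QA w.1 w.2 ∧ x ∉ H.map Prod.fst) → Y.ptc w ρ x = ρ x := by
    intro w hw x hx
    by_cases hxA : x ∈ Y.QA w.1 w.2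
    · have hxL : x ∈ H.map Prod.fst := by
        by_contra hn
        exact hx ⟨hxA, hn⟩
      obtain ⟨q, hq, rfl⟩ := List.mem_map.1 hxL
      rw [ptc_mem Y ρ hxA, hw q hq, hρ q hq]
    · exact ptc_not Y ρ hxA
  have e1 : Y.ct p s (Y.ptc v ρ) = Y.ct p s ρ :=
    Y.hB p s ρ _ fun x hx => key v hv x fun h => h1 ⟨x, hx, h⟩
  have e2 : Y.ct p s (Y.ptc v' ρ) = Y.ct p s ρ :=
    Y.hB p s ρ _ fun x hx => key v' hv' x fun h => h2 ⟨x, hx, h⟩
  rw [e2] at hok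
  rw [e1]
  refine (Y.hD _ _ s (Y.ptc v' ρ) (Y.ptc v' (Y.ptc v ρ)) ?_).2 hok
  intro x hx
  by_cases hxA : x ∈ Y.QA v'.1 v'.2
  · rw [ptc_mem Y _ hxA, ptc_mem Y _ hxA]
  · rw [ptc_not Y _ hxA, ptc_not Y _ hxA]
    exact key v hv x fun h => h3 ⟨x, hx, h⟩

end fin

theorem card_bad [Fintype X] [Fintype R] [Fintype S] (b : S → Prop) :
    (Nat.card {s : S // b s} : ℝ) = ∑ s, Set.indicator {s | b s} (fun _ => (1 : ℝ)) s := by
  classical
  rw [Nat.card_eq_fintype_card, Fintype.card_subtype]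
  simp only [Set.indicator, Set.mem_ofPred_eq]
  rw [Finset.sum_ite, Finset.sum_const, Finset.sum_const_zero, add_zero, nsmul_eq_mul, mul_one]

/-- PIECE FIN1 -/
theorem p_fin1 : P_fin1 := by
  intro X R S _ _ _ Y ε p H hε hh hne
  classical
  obtain ⟨N, hN⟩ : ∃ N : ℝ, N = (Y.post p H).card := ⟨_, rfl⟩
  have hNpos : 0 < N := by
    rw [hN]
    exact_mod_cast hne.card_pos
  obtain ⟨O, hO⟩ : ∃ O : ℝ, O = ((Om H).card : ℝ) := ⟨_, rfl⟩
  have hOpos : 0 < O := by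
    obtain ⟨v, hv⟩ := hne
    rw [hO]
    have : (Om H).Nonempty := ⟨v.2, mem_Om.2 (mem_post Y |>.1 hv).2⟩
    exact_mod_cast this.card_pos
  -- the two quantities
  obtain ⟨F, hF⟩ : ∃ F : (R × (X → Bool)) → (R × (X → Bool)) → ℝ, F = fun v' v =>
      (Nat.card {s : S // ¬ Y.ok (Y.sk v'.1 v'.2) (Y.ct p s v.2) s (Y.ptc v' v.2)} : ℝ) :=
    ⟨_, rfl⟩
  obtain ⟨D, hD⟩ : ∃ D : (R × (X → Bool)) → ℝ, D = fun v =>
      (Nat.card {s : S // ¬ Y.ok (Y.sk v.1 v.2) (Y.ct p s v.2) s v.2} : ℝ) := ⟨_, rfl⟩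
  have hRF : ∀ v', ∑ ρ ∈ Om H, ∑ v ∈ Y.post p H, F v' (v.1, Y.ptc v ρ) =
      O * ∑ v ∈ Y.post p H, F v' v := fun v' => by rw [hO]; exact resample Y p H (F v')
  have hRD : ∑ ρ ∈ Om H, ∑ v ∈ Y.post p H, D (v.1, Y.ptc v ρ) =
      O * ∑ v ∈ Y.post p H, D v := by rw [hO]; exact resample Y p H D
  -- the main inequality
  have hmain : ∀ ρ ∈ Om H, ∑ v' ∈ Y.post p H, ∑ v ∈ Y.post p H, F v' (v.1, Y.ptc v ρ) ≤
      N * ∑ v' ∈ Y.post p H, D (v'.1, Y.ptc v' ρ) +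
        3 * Y.t * ε * N * Fintype.card S * N := by
    intro ρ hρ
    rw [mem_Om] at hρ
    -- the three events
    obtain ⟨E, hE⟩ : ∃ E : Finset X → (R × (X → Bool)) → ℝ, E = fun Q v =>
      Set.indicator {v : R × (X → Bool) | ∃ x ∈ Q, x ∈ Y.QA v.1 v.2 ∧
        x ∉ H.map Prod.fst} (fun _ => (1 : ℝ)) v := ⟨_, rfl⟩
    have hE0 : ∀ Q v, 0 ≤ E Q v := by
      intro Q v
      rw [hE]
      exact Set.indicator_nonneg (fun _ _ => zero_le_one) v
    have hE1 : ∀ Q v, (∃ x ∈ Q, x ∈ Y.QA v.1 v.2 ∧ x ∉ H.map Prod.fst) → E Q v = 1 := by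
      intro Q v hv
      rw [hE]
      exact Set.indicator_of_mem (by exact hv) _
    have hEs : ∀ Q : Finset X, Q.card ≤ Y.t → ∑ v ∈ Y.post p H, E Q v ≤ Y.t * ε * N := by
      intro Q hQ
      rw [hE, hN]
      exact meet_le Y hε hh Q hQ
    have hpt : ∀ v' ∈ Y.post p H, ∀ v ∈ Y.post p H, F v' (v.1, Y.ptc v ρ) ≤
        D (v'.1, Y.ptc v' ρ) + ∑ s : S, (E (Y.QB p s ρ) v + E (Y.QB p s ρ) v' +
          E (Y.QD (Y.sk v'.1 v'.2) (Y.ct p s ρ) s (Y.ptc v' ρ)) v) := by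
      intro v' hv' v hv
      rw [mem_post] at hv hv'
      rw [hF, hD]
      simp only
      rw [card_bad (X := X) (R := R), card_bad (X := X) (R := R), ← Finset.sum_add_distrib]
      refine Finset.sum_le_sum fun s _ => ?_
      have n1 := hE0 (Y.QB p s ρ) v
      have n2 := hE0 (Y.QB p s ρ) v'
      have n3 := hE0 (Y.QD (Y.sk v'.1 v'.2) (Y.ct p s ρ) s (Y.ptc v' ρ)) v
      have n4 : 0 ≤ Set.indicator {s : S | ¬ Y.ok (Y.sk v'.1 (Y.ptc v' ρ))
          (Y.ct p s (Y.ptc v' ρ)) s (Y.ptc v' ρ)} (fun _ => (1 : ℝ)) s :=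
        Set.indicator_nonneg (fun _ _ => zero_le_one) s
      by_cases hb : Y.ok (Y.sk v'.1 v'.2) (Y.ct p s (Y.ptc v ρ)) s (Y.ptc v' (Y.ptc v ρ))
      · rw [Set.indicator_of_notMem (by exact fun h => h hb)]
        linarith
      · rw [Set.indicator_of_mem (by exact hb)]
        by_cases h1 : ∃ x ∈ Y.QB p s ρ, x ∈ Y.QA v.1 v.2 ∧ x ∉ H.map Prod.fst
        · have := hE1 _ _ h1
          linarith
        by_cases h2 : ∃ x ∈ Y.QB p s ρ, x ∈ Y.QA v'.1 v'.2 ∧ x ∉ H.map Prod.fst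
        · have := hE1 _ _ h2
          linarith
        by_cases h3 : ∃ x ∈ Y.QD (Y.sk v'.1 v'.2) (Y.ct p s ρ) s (Y.ptc v' ρ),
            x ∈ Y.QA v.1 v.2 ∧ x ∉ H.map Prod.fst
        · have := hE1 _ _ h3
          linarith
        have h4 : ¬ Y.ok (Y.sk v'.1 (Y.ptc v' ρ)) (Y.ct p s (Y.ptc v' ρ)) s (Y.ptc v' ρ) := by
          rw [(ptc_run Y v' ρ).2.2]
          intro hok
          exact hb (compare Y hv.2 hv'.2 hρ s h1 h2 h3 hok)
        have h5 : Set.indicator {s : S | ¬ Y.ok (Y.sk v'.1 (Y.ptc v' ρ))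
          (Y.ct p s (Y.ptc v' ρ)) s (Y.ptc v' ρ)} (fun _ => (1 : ℝ)) s = 1 :=
          Set.indicator_of_mem (by exact h4) _
        linarith
    have hS0 : (0 : ℝ) ≤ Fintype.card S := Nat.cast_nonneg _
    have hte : 0 ≤ (Y.t : ℝ) * ε := by positivity
    calc ∑ v' ∈ Y.post p H, ∑ v ∈ Y.post p H, F v' (v.1, Y.ptc v ρ)
        ≤ ∑ v' ∈ Y.post p H, ∑ v ∈ Y.post p H, (D (v'.1, Y.ptc v' ρ) +
          ∑ s : S, (E (Y.QB p s ρ) v + E (Y.QB p s ρ) v' +
          E (Y.QD (Y.sk v'.1 v'.2) (Y.ct p s ρ) s (Y.ptc v' ρ)) v)) :=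
          Finset.sum_le_sum fun v' hv' => Finset.sum_le_sum fun v hv => hpt v' hv' v hv
      _ = N * ∑ v' ∈ Y.post p H, D (v'.1, Y.ptc v' ρ) +
          (∑ v' ∈ Y.post p H, ∑ s : S, ∑ v ∈ Y.post p H, E (Y.QB p s ρ) v +
          ∑ s : S, ∑ v' ∈ Y.post p H, N * E (Y.QB p s ρ) v' +
          ∑ v' ∈ Y.post p H, ∑ s : S, ∑ v ∈ Y.post p H,
            E (Y.QD (Y.sk v'.1 v'.2) (Y.ct p s ρ) s (Y.ptc v' ρ)) v) := by
          have hcomm : ∑ s : S, ∑ v' ∈ Y.post p H, N * E (Y.QB p s ρ) v' =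
              ∑ v' ∈ Y.post p H, ∑ s : S, N * E (Y.QB p s ρ) v' := Finset.sum_comm
          rw [hcomm, Finset.mul_sum, ← Finset.sum_add_distrib, ← Finset.sum_add_distrib,
            ← Finset.sum_add_distrib]
          refine Finset.sum_congr rfl fun v' _ => ?_
          rw [Finset.sum_add_distrib, Finset.sum_const, nsmul_eq_mul, ← hN]
          congr 1
          rw [Finset.sum_comm, ← Finset.sum_add_distrib, ← Finset.sum_add_distrib]
          refine Finset.sum_congr rfl fun s _ => ?_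
          rw [Finset.sum_add_distrib, Finset.sum_add_distrib, Finset.sum_const, nsmul_eq_mul,
            ← hN]
      _ ≤ N * ∑ v' ∈ Y.post p H, D (v'.1, Y.ptc v' ρ) +
          (∑ v' ∈ Y.post p H, ∑ s : S, Y.t * ε * N +
          ∑ s : S, N * (Y.t * ε * N) +
          ∑ v' ∈ Y.post p H, ∑ s : S, Y.t * ε * N) := by
          refine add_le_add le_rfl (add_le_add (add_le_add ?_ ?_) ?_)
          · exact Finset.sum_le_sum fun v' _ => Finset.sum_le_sum fun s _ => hEs _ (Y.cB p s ρ)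
          · refine Finset.sum_le_sum fun s _ => ?_
            rw [← Finset.mul_sum]
            exact mul_le_mul_of_nonneg_left (hEs _ (Y.cB p s ρ)) hNpos.le
          · exact Finset.sum_le_sum fun v' _ => Finset.sum_le_sum fun s _ =>
              hEs _ (Y.cD _ _ s _)
      _ = N * ∑ v' ∈ Y.post p H, D (v'.1, Y.ptc v' ρ) +
          3 * Y.t * ε * N * Fintype.card S * N := by
          simp only [Finset.sum_const, nsmul_eq_mul, Finset.card_univ, ← hN]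
          ring
  -- the sum over all compatible assignments
  have hsum : ∑ v' ∈ Y.post p H, O * ∑ v ∈ Y.post p H, F v' v ≤
      O * (N * (∑ v ∈ Y.post p H, D v + 3 * Y.t * ε * N * Fintype.card S)) := by
    calc ∑ v' ∈ Y.post p H, O * ∑ v ∈ Y.post p H, F v' v
        = ∑ v' ∈ Y.post p H, ∑ ρ ∈ Om H, ∑ v ∈ Y.post p H, F v' (v.1, Y.ptc v ρ) :=
          Finset.sum_congr rfl fun v' _ => (hRF v').symm
      _ = ∑ ρ ∈ Om H, ∑ v' ∈ Y.post p H, ∑ v ∈ Y.post p H, F v' (v.1, Y.ptc v ρ) :=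
          Finset.sum_comm
      _ ≤ ∑ ρ ∈ Om H, (N * ∑ v' ∈ Y.post p H, D (v'.1, Y.ptc v' ρ) +
            3 * Y.t * ε * N * Fintype.card S * N) := Finset.sum_le_sum hmain
      _ = N * (∑ ρ ∈ Om H, ∑ v' ∈ Y.post p H, D (v'.1, Y.ptc v' ρ)) +
            O * (3 * Y.t * ε * N * Fintype.card S * N) := by
          rw [Finset.sum_add_distrib, Finset.sum_const, nsmul_eq_mul, ← hO, Finset.mul_sum]
      _ = O * (N * (∑ v ∈ Y.post p H, D v + 3 * Y.t * ε * N * Fintype.card S)) := by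
          rw [hRD]
          ring
  rw [← Finset.mul_sum] at hsum
  have hsum2 : ∑ v' ∈ Y.post p H, ∑ v ∈ Y.post p H, F v' v ≤
      ∑ _v' ∈ Y.post p H, (∑ v ∈ Y.post p H, D v + 3 * Y.t * ε * N * Fintype.card S) := by
    rw [Finset.sum_const, nsmul_eq_mul, ← hN]
    exact le_of_mul_le_mul_left hsum hOpos
  obtain ⟨v', hv', hle⟩ := Finset.exists_le_of_sum_le hne hsum2
  refine ⟨v', hv', ?_⟩
  rw [hF, hD, hN] at hle
  exact hle

end Pool.Agent.W2helper92.IR
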